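import Pool.Agent.U693.QN.Om
import Pool.Agent.U693.QN.Sch

/-!
# Rational points on all coverings of products of elliptic curves, over all number fields in an infinite
# Galois extension

Let `n ≥ 1` and let `K / ℚ` be any finite Galois extension of 2-power degree in which the prime `2` is
unramified.

Theorem. There are a finite set `S` of primes, all `1` modulo `8`, and `c > 0`, such that at least `c` times
the number of ALL `n`-tuples `(E_1, …, E_n)` of elliptic curves `E_i : y ^ 2 = x ^ 3 + A_i x + B_i` over `ℚ`,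
ordered by height, have the following property. Let `C` be the class of all the finite Galois extensions
`M / ℚ` of 2-power degree in which `2` is unramified, in which all `q ∈ S` split completely and in which only
such primes `ℓ` are ramified modulo which NONE of the polynomials `x ^ 3 + A_i x + B_i` has a zero, and let
`Ω` be the union of the images of the `M ∈ C` in the algebraic closure of `ℚ`. Then
* `K` is in `C`, the class `C` is closed under composita, `Ω` is a field, stable under all automorphisms,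
  and for a set of primes `ℓ` of positive lower density `ℚ(√ℓ)` is in `C` (so `Ω` is an infinite extension);
* for ALL schemes `X` with maps to the `E_i` (given by coordinate functions `x_i`, `y_i` on open subsets
  `U_i`; for a morphism `f_i : X → E_i` this is `X ∖ f_i⁻¹(0)`) and for ALL fields `L` in `Ω`, finite or
  infinite over `ℚ`, all points of `X` with values in `L` are in the complement of the `U_i`, the fibre of
  `X → E_1 × ⋯ × E_n` over `0`. If this fibre is finite and `X` is a scheme over `L` then `X(L)` is finite and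
  has at most as many elements as the fibre has points.

So the conclusion of the question (finiteness of `X(k)`) holds over ALL number fields `k` in `Ω` and for ALL
complete varieties `X` over `k` (of any dimension, hyperbolic or not) with a finite morphism to
`E_1 × ⋯ × E_n`, in particular for all RAMIFIED coverings of this abelian variety. Faltings' theorem for
subvarieties of abelian varieties does not give this (over a number field `k` for which `(E_1 × ⋯ × E_n)(k)`
is infinite the finiteness for hyperbolic ramified coverings is an open case of the question). As the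
bound does not depend on `k`, `X(Ω)` is finite too. By Faltings' theorem for curves (not formalized) the
question has a positive answer also for all hyperbolic `X` for which the fibre over `0` has dimension at most
one, for example for all hyperbolic surfaces over `k` with a nonconstant map to one of the `E_i`.

The proof. There are no points but `0` on any of the `E_i` over any `M` in the class: for one curve this is
my `MP_775b3b_nt.UniformOverTwoExtensions` (files `Pool/Agent/U693/UN`), with a set of curves of positive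
proportion for which one and the same `S` is good. The new part (`Pool/Agent/U693/QN`) is the common class of
`n` curves: it is infinite because of Chebotarev's theorem for the compositum of the `n` cubic splitting
fields and of `ℚ(√-1)`, `ℚ(√q)`, `q ∈ S`; the automorphism without fixed zeros of any of the `n` polynomials
is the fourth power of a Frobenius automorphism at the (ramified) prime two, modulo which all the polynomials
are irreducible. A point with values in `L` of the open subset `U_i` gives a homomorphism from the functions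
on `U_i` to `L`, and the images of `x_i`, `y_i` are a point of `E_i` different from `0`; a rational point of
a scheme over `L` is determined by its image.
-/

set_option autoImplicit false
set_option linter.all false

namespace Pool.Agent.Results.MP_627a61_nt.CoversOfProducts

open Filter NumberField AlgebraicGeometry CategoryTheory IsLocalRing
open scoped Classical

/-- The equation `y ^ 2 = x ^ 3 + A x + B` with integers `A`, `B` defines an elliptic curve, and
there is no prime `p` with `p ^ 4 ∣ A` and `p ^ 6 ∣ B`. Every elliptic curve over `ℚ` is isomorphic to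
exactly one of these. -/
structure IsMinimal (A B : ℤ) : Prop where
  elliptic : 4 * A ^ 3 + 27 * B ^ 2 ≠ 0
  minimal : ∀ p : ℕ, p.Prime → ¬ ((p : ℤ) ^ 4 ∣ A ∧ (p : ℤ) ^ 6 ∣ B)

/-- The height. -/
def height (p : ℤ × ℤ) : ℤ := max (4 * |p.1| ^ 3) (27 * p.2 ^ 2)

/-- The set of all elliptic curves over `ℚ` of height at most `X`. -/
def Curves (X : ℕ) : Set (ℤ × ℤ) := {p | IsMinimal p.1 p.2 ∧ height p ≤ X}

/-- A map from an open subset `U` of the scheme `X` to the affine curve `E ∖ {0}`,
`E : y ^ 2 = x ^ 3 + A x + B` with `p = (A, B)`: two functions on `U` which satisfy the equation. -/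
structure MapTo (p : ℤ × ℤ) (X : Scheme.{0}) where
  /-- the open subset -/
  U : X.Opens
  /-- the first coordinate -/
  x : Γ(X, U)
  /-- the second coordinate -/
  y : Γ(X, U)
  eq : y ^ 2 = x ^ 3 + (p.1 : Γ(X, U)) * x + (p.2 : Γ(X, U))

section tuples

variable {n : ℕ}

/-- The points of `X` which are in none of the open subsets: the fibre over `0`. -/
def ZeroFibre {p : Fin n → ℤ × ℤ} {X : Scheme.{0}} (f : ∀ i, MapTo (p i) X) : Set X :=
  {z | ∀ i, z ∉ (f i).U}

/-- The set `X(L)` of the rational points of the scheme `X` over the field `L`. -/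
def Points {L : Type} [Field L] {X : Scheme.{0}} (π : X ⟶ Spec (.of L)) : Type :=
  {s : Spec (.of L) ⟶ X // s ≫ π = 𝟙 _}

/-- The class `C` for `E_i : y ^ 2 = x ^ 3 + A_i x + B_i`, `p i = (A_i, B_i)`, and `S`: the number fields `M`
which are Galois over `ℚ`, of degree a power of two, in which `2` is unramified (no prime ideal `𝔭` has
`2 ∈ 𝔭 ^ 2`), in which all `q ∈ S` split completely (they are unramified, and every integer of `M` is
congruent to a rational integer modulo each prime over `q`) and in which only such primes `ℓ` are ramified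
modulo which none of the `x ^ 3 + A_i x + B_i` has a zero. -/
structure InClass (S : Finset ℕ) (p : Fin n → ℤ × ℤ) (M : Type) [Field M] [NumberField M] :
    Prop where
  galois : IsGalois ℚ M
  degree : ∃ m : ℕ, Module.finrank ℚ M = 2 ^ m
  two : ∀ 𝔭 : Ideal (𝓞 M), 𝔭.IsPrime → (2 : 𝓞 M) ∉ 𝔭 ^ 2
  split : ∀ q ∈ S, ∀ 𝔭 : Ideal (𝓞 M), 𝔭.IsPrime → (q : 𝓞 M) ∈ 𝔭 →
    (q : 𝓞 M) ∉ 𝔭 ^ 2 ∧ ∀ x : 𝓞 M, ∃ c : ℤ, x - (c : 𝓞 M) ∈ 𝔭
  ramified : ∀ ℓ : ℕ, ℓ.Prime → (∃ 𝔭 : Ideal (𝓞 M), 𝔭.IsPrime ∧ (ℓ : 𝓞 M) ∈ 𝔭 ^ 2) →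
    ∀ (i : Fin n) (z : ℤ), ¬ (ℓ : ℤ) ∣ z ^ 3 + (p i).1 * z + (p i).2

/-- Every number field which is generated by a square root of `ℓ` is in the class. -/
def HasQuadratic (S : Finset ℕ) (p : Fin n → ℤ × ℤ) (ℓ : ℕ) : Prop :=
  ∀ (M : Type) [Field M] [NumberField M] (r : M), r ^ 2 = (ℓ : M) →
    (∀ T : Subfield M, r ∈ T → T = ⊤) → InClass S p M

/-- The union `Ω` of all images of fields in the class in the algebraic closure of `ℚ`. -/
def Omega (S : Finset ℕ) (p : Fin n → ℤ × ℤ) : Set (AlgebraicClosure ℚ) :=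
  {x | ∃ (M : Type) (_ : Field M) (_ : NumberField M) (φ : M →+* AlgebraicClosure ℚ),
    InClass S p M ∧ x ∈ Set.range φ}

/-- The property of the tuple `p`. -/
structure Good (K : Type) [Field K] [NumberField K] (S : Finset ℕ) (p : Fin n → ℤ × ℤ) :
    Prop where
  /-- For ALL fields `L` in `Ω` and ALL schemes `X` with maps to the `E_i` all points of `X` with values in
  `L` are in the zero fibre. -/
  fibre : ∀ (L : Type) [Field L] (φ : L →+* AlgebraicClosure ℚ), (∀ x, φ x ∈ Omega S p) →
    ∀ (X : Scheme.{0}) (f : ∀ i, MapTo (p i) X) (s : Spec (.of L) ⟶ X),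
      s (closedPoint L) ∈ ZeroFibre f
  /-- If the zero fibre is finite and `X` is a scheme over `L` then `X(L)` is finite, with at most as many
  elements as the zero fibre has points. -/
  finite : ∀ (L : Type) [Field L] (φ : L →+* AlgebraicClosure ℚ), (∀ x, φ x ∈ Omega S p) →
    ∀ (X : Scheme.{0}) (π : X ⟶ Spec (.of L)) (f : ∀ i, MapTo (p i) X), (ZeroFibre f).Finite →
      Finite (Points π) ∧ Nat.card (Points π) ≤ (ZeroFibre f).ncard
  /-- `Ω` is a field, stable under all automorphisms. -/
  omega : ∃ T : Subfield (AlgebraicClosure ℚ), (T : Set (AlgebraicClosure ℚ)) = Omega S p ∧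
    ∀ σ : AlgebraicClosure ℚ →+* AlgebraicClosure ℚ, ∀ x ∈ T, σ x ∈ T
  /-- `K` is in the class. -/
  base : InClass S p K
  /-- The class is closed under composita. -/
  composita : ∀ (M₁ M₂ N : Type) [Field M₁] [NumberField M₁] [Field M₂] [NumberField M₂] [Field N]
    [NumberField N] [Algebra M₁ N] [Algebra M₂ N],
    (∀ T : Subfield N, (∀ x : M₁, algebraMap M₁ N x ∈ T) → (∀ x : M₂, algebraMap M₂ N x ∈ T) →
      T = ⊤) → InClass S p M₁ → InClass S p M₂ → InClass S p N
  /-- A set of primes `ℓ` of positive lower density for which `ℚ(√ℓ)` is in the class and `√ℓ ∈ Ω`. -/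
  many : ∃ δ : ℝ, 0 < δ ∧ ∀ᶠ N : ℕ in atTop, δ * (Nat.primeCounting N : ℝ) ≤
    (((Finset.range (N + 1)).filter fun ℓ => ℓ.Prime ∧ HasQuadratic S p ℓ ∧
      ∀ r : AlgebraicClosure ℚ, r ^ 2 = (ℓ : AlgebraicClosure ℚ) → r ∈ Omega S p).card : ℝ)

/-- The `n`-tuples of elliptic curves over `ℚ` of height at most `X` with the property. -/
def GoodTuples (K : Type) [Field K] [NumberField K] (S : Finset ℕ) (n X : ℕ) :
    Set (Fin n → ℤ × ℤ) := {p | (∀ i, p i ∈ Curves X) ∧ Good K S p}

end tuples

theorem crv_iff (X : ℕ) (p : ℤ × ℤ) : Pool.Agent.N922.PQ.Crv X p.1 p.2 ↔ p ∈ Curves X := by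
  constructor
  · rintro ⟨h1, h2, h3, h4⟩
    exact ⟨⟨h1, h2⟩, max_le h3 h4⟩
  · rintro ⟨⟨h1, h2⟩, h3⟩
    exact ⟨h1, h2, (le_max_left _ _).trans h3, (le_max_right _ _).trans h3⟩

theorem nonempty {X : ℕ} (hX : 27 ≤ X) : ((1, 1) : ℤ × ℤ) ∈ Curves X := by
  refine ⟨⟨by norm_num, ?_⟩, ?_⟩
  · rintro p hp ⟨h, -⟩
    have h1 : ((p : ℤ)) ∣ 1 := (dvd_pow_self (p : ℤ) (by norm_num)).trans h
    have h2 : p ∣ 1 := by exact_mod_cast h1
    exact hp.one_lt.ne' (Nat.dvd_one.1 h2)
  · have : height ((1, 1) : ℤ × ℤ) = 27 := by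
      simp [height]
    rw [this]
    exact_mod_cast hX

theorem isPr_iff {q : ℕ} : Pool.Agent.N922.PQ.IsPr (q : ℤ) ↔ q.Prime := by
  constructor
  · intro h
    exact Nat.prime_iff_prime_int.2 h.2
  · intro h
    exact ⟨by exact_mod_cast h.pos, Nat.prime_iff_prime_int.1 h⟩

/-- The class in terms of the class of the library. -/
theorem class_iff {n : ℕ} (hn : 1 ≤ n) {S : Finset ℤ} (hS : ∀ Q ∈ S, Pool.Agent.N922.PQ.IsPr Q)
    (p : Fin n → ℤ × ℤ) (M : Type) [Field M] [NumberField M] :
    InClass (S.image Int.toNat) p M ↔ Pool.Agent.U693.QN.InT S p M := by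
  have hto : ∀ P : ℤ, Pool.Agent.N922.PQ.IsPr P → ((P.toNat : ℕ) : ℤ) = P := fun P hP =>
    Int.toNat_of_nonneg hP.1.le
  constructor
  · intro h i
    refine ⟨h.galois, h.degree, h.two, fun Q hQ 𝔭 h𝔭 hm => ?_, fun P hP hex => ?_⟩
    · have h1 := h.split Q.toNat (Finset.mem_image_of_mem _ hQ) 𝔭 h𝔭
      have e : ((Q.toNat : ℕ) : 𝓞 M) = (Q : 𝓞 M) := by
        rw [← Int.cast_natCast, hto Q (hS Q hQ)]
      rw [e] at h1
      exact h1 hm
    · have h1 := h.ramified P.toNat (isPr_iff.1 (by rw [hto P hP]; exact hP))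
      have e : ((P.toNat : ℕ) : 𝓞 M) = (P : 𝓞 M) := by
        rw [← Int.cast_natCast, hto P hP]
      rw [e, hto P hP] at h1
      exact h1 hex i
  · intro hh
    have h := hh ⟨0, hn⟩
    refine ⟨h.galois, h.degree, h.two, fun q hq 𝔭 h𝔭 hm => ?_, fun ℓ hℓ hex i => ?_⟩
    · obtain ⟨Q, hQ, rfl⟩ := Finset.mem_image.1 hq
      have h1 := h.split Q hQ 𝔭 h𝔭
      have e : ((Q.toNat : ℕ) : 𝓞 M) = (Q : 𝓞 M) := by
        rw [← Int.cast_natCast, hto Q (hS Q hQ)]
      rw [e] at hm ⊢
      exact h1 hm
    · have h1 := (hh i).ram (ℓ : ℤ) (isPr_iff.2 hℓ)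
      rw [Int.cast_natCast] at h1
      exact h1 hex

theorem omega_eq {n : ℕ} (hn : 1 ≤ n) {S : Finset ℤ} (hS : ∀ Q ∈ S, Pool.Agent.N922.PQ.IsPr Q)
    (p : Fin n → ℤ × ℤ) :
    Omega (S.image Int.toNat) p = Pool.Agent.U693.QN.OmT (AlgebraicClosure ℚ) S p := by
  ext x
  constructor
  · rintro ⟨M, i1, i2, φ, hM, hx⟩
    exact ⟨M, i1, i2, φ, (class_iff hn hS p M).1 hM, hx⟩
  · rintro ⟨M, i1, i2, φ, hM, hx⟩
    exact ⟨M, i1, i2, φ, (class_iff hn hS p M).2 hM, hx⟩

/-- No points over the members of the class. -/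
theorem np_of {M : Type} [Field M] [NumberField M] {p : ℤ × ℤ} (hd : 4 * p.1 ^ 3 + 27 * p.2 ^ 2 ≠ 0)
    (h : Pool.Agent.N922.PQ.GoodV (M := M) (𝓞 M) p) (x y : M) :
    y ^ 2 ≠ x ^ 3 + (p.1 : M) * x + (p.2 : M) := by
  set W : WeierstrassCurve M := ⟨0, 0, 0, (p.1 : M), (p.2 : M)⟩ with hW
  have hbc : (Pool.Agent.N874.PP.sW (p.1 : M) (p.2 : M)).baseChange M = W := by
    apply WeierstrassCurve.ext <;>
      simp [Pool.Agent.N874.PP.sW, hW, WeierstrassCurve.baseChange]
  have key : ∀ W : WeierstrassCurve M,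
      (Pool.Agent.N874.PP.sW (p.1 : M) (p.2 : M)).baseChange M = W →
      Subsingleton W.toAffine.Point := by
    rintro W rfl
    exact h.2.1
  have hM := key _ hbc
  have hdM : 4 * W.a₄ ^ 3 + 27 * W.a₆ ^ 2 ≠ 0 := by
    show (4 : M) * (p.1 : M) ^ 3 + 27 * (p.2 : M) ^ 2 ≠ 0
    exact_mod_cast hd
  rw [Pool.Agent.U693.UN.np_iff W rfl rfl rfl hdM] at hM
  exact hM x y

/-- For every `n ≥ 1` and every Galois extension `K / ℚ` of degree `2 ^ m` in which `2` is unramified there
are a finite set `S` of primes, all `1` modulo `8`, and `c > 0` such that for all large `X` at least `c` times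
the number of all `n`-tuples of elliptic curves `E_i` over `ℚ` of height at most `X` have the property
`Good K S`: for ALL fields `L` in the infinite Galois extension `Ω`, the union of all the fields in the
common class, and ALL schemes `X` with maps to the `E_i` all points of `X` over `L` are in the fibre over
`0`, and if this fibre is finite and `X` is a scheme over `L` then `X(L)` is finite with at most as many
elements; and `K` is in the class, which is closed under composita and contains `ℚ(√ℓ)` for a set of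
primes `ℓ` of positive lower density. -/
theorem result (n : ℕ) (hn : 1 ≤ n) (K : Type) [Field K] [NumberField K] [IsGalois ℚ K] (m : ℕ)
    (hm : Module.finrank ℚ K = 2 ^ m)
    (h2 : ∀ 𝔭 : Ideal (𝓞 K), 𝔭.IsPrime → (2 : 𝓞 K) ∉ 𝔭 ^ 2) :
    (∀ X : ℕ, (Curves X).Finite) ∧
    ∃ S : Finset ℕ, (∀ q ∈ S, q.Prime ∧ q % 8 = 1) ∧ ∃ c : ℝ, 0 < c ∧ ∀ᶠ X : ℕ in atTop,
      0 < (Curves X).ncard ∧
      c * ((Curves X).ncard : ℝ) ^ n ≤ ((GoodTuples K S n X).ncard : ℝ) := by
  have hset : ∀ X : ℕ, Curves X = {p : ℤ × ℤ | Pool.Agent.N922.PQ.Crv X p.1 p.2} := by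
    intro X
    ext p
    exact (crv_iff X p).symm
  have hfin : ∀ X : ℕ, (Curves X).Finite := fun X => by
    rw [hset]
    exact Pool.Agent.N922.PQ.crv_fin X
  refine ⟨hfin, ?_⟩
  obtain ⟨S, hS, c, hc, X₀, h⟩ := Pool.Agent.U693.QN.finalT n K hm h2
  have hSp : ∀ Q ∈ S, Pool.Agent.N922.PQ.IsPr Q := fun Q hQ => (hS Q hQ).1
  refine ⟨S.image Int.toNat, ?_, c, hc, ?_⟩
  · intro q hq
    obtain ⟨Q, hQ, rfl⟩ := Finset.mem_image.1 hq
    obtain ⟨h3, h4⟩ := hS Q hQ
    have e : ((Q.toNat : ℕ) : ℤ) = Q := Int.toNat_of_nonneg h3.1.le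
    refine ⟨isPr_iff.1 (by rw [e]; exact h3), by omega⟩
  filter_upwards [eventually_ge_atTop (max X₀ 27)] with X hX
  refine ⟨(Set.ncard_pos (hfin X)).2 ⟨_, nonempty ((le_max_right _ _).trans hX)⟩, ?_⟩
  have h1 := (h X ((le_max_left _ _).trans hX)).2
  rw [← hset] at h1
  refine h1.trans ?_
  have h3 : {p : Fin n → ℤ × ℤ | ∀ i, Pool.Agent.N922.PQ.Crv X (p i).1 (p i).2 ∧
      Pool.Agent.U693.QN.One K S (p i)} ⊆ GoodTuples K (S.image Int.toNat) n X := by
    intro p hp
    have hpC : ∀ i, p i ∈ Curves X := fun i => (crv_iff X (p i)).1 (hp i).1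
    have hK : Pool.Agent.U693.QN.InT S p K := fun i => (hp i).2.1
    have hd : ∀ i, 4 * (p i).1 ^ 3 + 27 * (p i).2 ^ 2 ≠ 0 := fun i => (hpC i).1.elliptic
    have homega := omega_eq hn hSp p
    have hno : ∀ (L : Type) [Field L] (φ : L →+* AlgebraicClosure ℚ),
        (∀ x, φ x ∈ Omega (S.image Int.toNat) p) → ∀ i, ∀ a b : L,
          b ^ 2 ≠ a ^ 3 + ((p i).1 : L) * a + ((p i).2 : L) := by
      intro L _ φ hφ i a b hab
      rw [homega] at hφ
      have hle : ∀ x, x ∈ Pool.Agent.U693.QN.OmT (AlgebraicClosure ℚ) S p →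
          x ∈ Pool.Agent.U693.UN.Om (AlgebraicClosure ℚ) S (p i).1 (p i).2 := by
        rintro x ⟨M, i1, i2, ψ, hM, hx⟩
        exact ⟨M, i1, i2, ψ, hM i, hx⟩
      refine Pool.Agent.U693.UN.om_np hSp (fun M _ _ hM => np_of (hd i) ((hp i).2.2.2 M hM))
        (hle _ (hφ a)) (hle _ (hφ b)) ?_
      have h6 := congrArg φ hab
      simpa using h6
    have hfib : ∀ (L : Type) [Field L] (φ : L →+* AlgebraicClosure ℚ),
        (∀ x, φ x ∈ Omega (S.image Int.toNat) p) → ∀ (X : Scheme.{0})
          (f : ∀ i, MapTo (p i) X) (s : Spec (.of L) ⟶ X), s (closedPoint L) ∈ ZeroFibre f :=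
      fun L _ φ hφ X f s i =>
        Pool.Agent.U693.QN.no_pt (hno L φ hφ i) s (f i).U (f i).x (f i).y (f i).eq
    refine ⟨hpC, hfib, ?_, ?_, (class_iff hn hSp p K).2 hK, ?_, ?_⟩
    · intro L _ φ hφ X π f hZ
      haveI : Finite (ZeroFibre f) := hZ
      let g : Points π → ZeroFibre f := fun s => ⟨s.1 (closedPoint L), hfib L φ hφ X f s.1⟩
      have hg : Function.Injective g := by
        intro s s' he
        apply Subtype.ext
        exact Pool.Agent.U693.QN.sec_unique π s.2 s'.2 (congrArg Subtype.val he)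
      refine ⟨Finite.of_injective g hg, ?_⟩
      exact (Nat.card_le_card_of_injective g hg).trans_eq (Nat.card_coe_set_eq _)
    · obtain ⟨T, hT⟩ := Pool.Agent.U693.QN.omT_field hn hSp
        ((IsAlgClosed.lift : K →ₐ[ℚ] AlgebraicClosure ℚ) : K →+* AlgebraicClosure ℚ) hK
      have hmem : ∀ x, x ∈ T ↔ x ∈ Pool.Agent.U693.QN.OmT (AlgebraicClosure ℚ) S p := by
        intro x
        rw [← hT]
        rfl
      refine ⟨T, by rw [hT, homega], ?_⟩
      intro σ x hx
      rw [hmem] at hx ⊢
      exact Pool.Agent.U693.QN.omT_stable σ hx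
    · intro M₁ M₂ N _ _ _ _ _ _ _ _ hg h₁ h₂
      exact (class_iff hn hSp p N).2 (Pool.Agent.U693.QN.InT.comp hn hSp hg
        ((class_iff hn hSp p M₁).1 h₁) ((class_iff hn hSp p M₂).1 h₂))
    · obtain ⟨δ, hδ, hev⟩ := Pool.Agent.U693.QN.densT hn S (fun Q hQ => (hSp Q hQ).2.ne_zero)
        (fun i => (hp i).2.2.1)
      refine ⟨δ, hδ, ?_⟩
      filter_upwards [hev] with N hN
      refine hN.trans ?_
      have hsub : ((Finset.range (N + 1)).filter fun ℓ => ℓ.Prime ∧
          Pool.Agent.U693.QN.TpT p S ℓ) ⊆ ((Finset.range (N + 1)).filter fun ℓ => ℓ.Prime ∧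
            HasQuadratic (S.image Int.toNat) p ℓ ∧ ∀ r : AlgebraicClosure ℚ,
              r ^ 2 = (ℓ : AlgebraicClosure ℚ) → r ∈ Omega (S.image Int.toNat) p) := by
        intro ℓ hℓ
        rw [Finset.mem_filter] at hℓ ⊢
        have hq := Pool.Agent.U693.QN.quadT hS hℓ.2.1 hℓ.2.2
        refine ⟨hℓ.1, hℓ.2.1, ?_, ?_⟩
        · intro M _ _ r hr hgen
          exact (class_iff hn hSp p M).2 (hq M r (by rw [hr, Int.cast_natCast]) hgen)
        · intro r hr
          rw [homega]
          exact Pool.Agent.U693.QN.omT_sqrt (d := (ℓ : ℤ)) (fun M _ _ r hr hgen => hq M r hr hgen)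
            (by rw [hr, Int.cast_natCast])
      exact_mod_cast Finset.card_le_card hsub
  have hfin2 : (GoodTuples K (S.image Int.toNat) n X).Finite :=
    (Set.Finite.pi' fun _ => hfin X).subset fun p hp => hp.1
  have h4 := Set.ncard_le_ncard h3 hfin2
  exact_mod_cast h4

end Pool.Agent.Results.MP_627a61_nt.CoversOfProducts
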