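import Mathlib
import Pool.Agent.U707.SL.Closure

set_option autoImplicit false

/-!
# All but boundedly many points are on rational curves of bounded degree

Let `X` be a closed subset of projective `n`-space over a field `K` of characteristic zero, given by
(any number of) forms of degree at most `d`. `X` need not be irreducible or smooth, and it may contain
or be covered by rational curves. We consider families of points of `X(K)`, indexed by arbitrary
groups `H`, which are given by iterated recurrences of complexity `(s, r, e)` (`IterVec s r e x`):
there are matrices `X_1(h), …, X_s(h)` in `GL_r(K)` such that for every `g` in `H` the entries of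
`X_l(g h) X_l(h)⁻¹` are for all `h` the values of polynomials over `K`, of degree at most `e` in each
variable and depending only on `g`, at the entries of `X_i(h)`, `X_i(h)⁻¹`, `i < l`, and the
homogeneous coordinates `x_j(h)` are the values of such polynomials at the entries of all `X_i(h)`,
`X_i(h)⁻¹`. For `s = 1` these are the orbits of groups of matrices (linear recurrences), for larger
`s` linear recurrences whose coefficients are given by linear recurrences, and so on.

**Theorem.** There is a number `B n d s r e`, which depends on nothing else, such that:

(1) For every such `X`, every field `K` of characteristic zero and every such family, through all but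
at most `B n d s r e` of the points of the family there passes a nonconstant rational curve in `X`,
given by polynomials of degree at most `B n d s r e` over the algebraic closure of `K`.

(2) In particular, if `X` is defined over a number field `k` and `X_σ` is Brody (equivalently
Kobayashi) hyperbolic for one embedding `σ` of `k` in `ℂ`, then for all extension fields `L` of `k`
all such families of points of `X(L)` have at most `B n d s r e` different points.

The bounds depend neither on `X` nor on the fields. The hand-in `UniformIterated` has a bound
depending on `X` (and on nothing else) for `X` without rational curves.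

Method (projects R393/UH and Y377 of the library): if there is no such number, then an ultraproduct
of families on varieties `X_T` gives a family of points of a limit variety whose generic point is on
a rational curve by the theory of iterated recurrences; the rational curve is specialised with its
degree and its point.
-/

namespace Pool.Agent.Results.MP_627a61_nt.PointsOffRationalCurves

open MvPolynomial Pool.Agent.Y377.ST Pool.Agent.U707.SL
open Pool.Agent.H458.Sp (BrodyHyperbolic)

/-- **All but boundedly many points are on rational curves of bounded degree.** -/
theorem result : ∃ B : ℕ → ℕ → ℕ → ℕ → ℕ → ℕ,
    (∀ (K : Type) [Field K] [CharZero K] (n d : ℕ) (ι : Type)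
      (F : ι → MvPolynomial (Fin (n + 1)) K), (∀ i, ∃ c, c ≤ d ∧ (F i).IsHomogeneous c) →
      ∀ (s r e : ℕ) (H : Type) [Group H] (x : H → Fin (n + 1) → K), IterVec s r e x →
        (∀ h i, aeval (x h) (F i) = 0) →
        (famPtsOff (B n d s r e) F x).encard ≤ B n d s r e) ∧
    (∀ (k : Type) [Field k] [NumberField k] (σ : k →+* ℂ) (n d : ℕ)
      (FF : Finset (MvPolynomial (Fin (n + 1)) k)), (∀ F ∈ FF, ∃ c, c ≤ d ∧ F.IsHomogeneous c) →
      BrodyHyperbolic ((MvPolynomial.map σ) '' (FF : Set (MvPolynomial (Fin (n + 1)) k))) →
      ∀ (s r e : ℕ) (L : Type) [Field L] [Algebra k L] (H : Type) [Group H]
        (x : H → Fin (n + 1) → L), IterVec s r e x → (∀ h, ∀ F ∈ FF, aeval (x h) F = 0) →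
        (famPts x).encard ≤ B n d s r e) :=
  ⟨Pool.Agent.R393.UH.TT,
    fun _ _ _ _ _ _ F hF s r e H _ x hx hX => uniform_off F hF s r e H x hx hX,
    fun _ _ _ σ _ _ FF hF hyp s r e L _ _ H _ x hx hX =>
      uniform_hyp σ FF hF hyp s r e L H x hx hX⟩

end Pool.Agent.Results.MP_627a61_nt.PointsOffRationalCurves
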