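import Pool.Agent.U207.QK.Cur
import Pool.Agent.U207.QC.TrD

/-!
# Lang's question on hyperbolic varieties is a question on intersections of quadrics

Let `X` be any projective variety in `P^n`, `n ≥ 1` (any dimension and any singularities), over a field `K`
of characteristic zero, given by forms of degree at most `d`, `d ≥ 3`, and `v : P^n → P^N` the Veronese
embedding of degree `d`. For all `c ≥ (2 (N + 1)^3 + 6 N + 5)^2` there are quadratic forms `P_i` and linear
forms `ℓ_i` over `K`, `i < c`, such that the covering of `P^N` with group `(ℤ/2)^c`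

`Y : x_i^2 = P_i(h_0, …, h_N), i < c`, in `P^{N+c}`,

is a smooth complete intersection of `c` quadrics (so `K_Y = O(c - N - 1)` is ample), `P_i = ℓ_i^2` on
`v(X)`, so that `Y` contains the `2^c` sheets `x_i = ± ℓ_i(h)`, `h ∈ v(X)`, over `K`, and

* over every algebraically closed field all closed subvarieties of `Y` of positive dimension which do not
  lie over `v(X)` are of general type;
* for every embedding `σ` of `K` in `ℂ` all holomorphic maps from the punctured disc to `Y_σ` extend or lie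
  over `v(X)_σ`, and all nonconstant entire curves in `Y_σ` lie over `v(X)_σ`; so `Y_σ` is hyperbolic
  if and only if `X_σ` is hyperbolic.

So Q1, for all projective varieties over a number field `K` and a given embedding `σ`, is equivalent to
Q1 for the smooth coverings `Y`, with `c` in any given infinite sets `E N`: these are smooth complete
intersections of quadrics.

Proof. See `Pool/Agent/U207/QK` and `QC`. `v(X)` is given by quadratic forms `b_l` over `K` whose
Jacobian matrix has rank `≥ N - n > n` at all points of `v(X)`. Let `Z_t = ∑ C_{tl} b_l` and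
`P_i = (∑_j a_i^j h_j)^2 + ∑_t a_i^{B + k t} Z_t(h)` with integers `C_{tl}`, `a_i`: a dimension count for
algebraically independent parameters and specialization (Nullstellensatz) show that `Y` is smooth
for integral parameters outside of a hypersurface. `P_i(h)` is the value at the node `a_i` of a polynomial
in one variable with coefficients depending on `h`; for a point of `Y` in a field with a derivation the
method of Büchi's problem (Vojta, Pasten) shows that this polynomial is a square up to a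
factor, and then an argument with the derivative shows that all ratios of the `h_j` are constants
or all `Z_t(h)` are zero.
-/

set_option autoImplicit false

namespace Pool.Agent.Results.MP_627a61_nt.QuadricCoversSuffice

open MvPolynomial Metric
open scoped LinearAlgebra.Projectivization
open Pool.Agent.W602.GT (SubVar GeneralType)
open Pool.Agent.N254.SQ (Monomials veronese Extends)
open Pool.Agent.U207.QC (hI)
open Pool.Agent.U207.QK (coverForm SmoothCover)

section defs

variable {K : Type} [Field K] {ι : Type} {n : ℕ}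

/-- `X(K)` for the closed subset `X` of `P^n` over `K` given by the forms `F i`. -/
def points (F : ι → MvPolynomial (Fin (n + 1)) K) : Set (ℙ K (Fin (n + 1) → K)) :=
  {P | ∀ i, eval P.rep (F i) = 0}

/-- `X_σ` is hyperbolic (in Brody's form, which is equivalent to Kobayashi's for closed subsets of
projective spaces): every holomorphic map from the complex plane to `X_σ`, given by entire functions
without common zeros, is constant. -/
def Hyperbolic (σ : K →+* ℂ) (F : ι → MvPolynomial (Fin (n + 1)) K) : Prop :=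
  ∀ f : ℂ → Fin (n + 1) → ℂ, Differentiable ℂ f → (∀ z, f z ≠ 0) →
    (∀ z i, eval₂ σ (f z) (F i) = 0) → ∀ z w, ∃ c : ℂ, f z = c • f w

/-- Q1 for all projective varieties over `K` and the embedding `σ`: if `X_σ` is hyperbolic, then `X(K)` is
finite. -/
def LangProjective (σ : K →+* ℂ) : Prop :=
  ∀ (n : ℕ) (ι : Type) [Finite ι] (F : ι → MvPolynomial (Fin (n + 1)) K),
    (∀ i, ∃ d, (F i).IsHomogeneous d) → Hyperbolic σ F → (points F).Finite

/-- Q1 for the coverings `Y = {x_i ^ 2 = P_i(h_0, …, h_N), i < c}` over `K` which are smooth complete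
intersections of quadrics, with `c ∈ E N` -/
def LangCovers (E : ℕ → Set ℕ) (σ : K →+* ℂ) : Prop :=
  ∀ (N c : ℕ) (P : Fin c → MvPolynomial (Fin (N + 1)) K), c ∈ E N →
    (∀ i, (P i).IsHomogeneous 2) → SmoothCover P → Hyperbolic σ (coverForm P) →
      (points (coverForm P)).Finite

end defs

section properties

variable {K : Type} [Field K] {n N c : ℕ} (m : Fin (N + 1) → Fin (n + 1) → ℕ) {ι : Type}
  (F : ι → MvPolynomial (Fin (n + 1)) K) (P : Fin c → MvPolynomial (Fin (N + 1)) K)

/-- over algebraically closed fields `k` closed subvarieties of `Y` of positive dimension are of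
general type or lie over `v(X)` -/
def Subvarieties : Prop :=
  ∀ (k : Type) [Field k] [IsAlgClosed k] [Algebra K k] (L : Type) [Field L] [Algebra k L] (w : ℕ)
    (y : Fin (N + c + 1) → L), 1 ≤ w →
      SubVar (fun i => map (algebraMap K k) (coverForm P i)) L w y → GeneralType k L w ∨
        ∃ (x : Fin (n + 1) → L) (s : L), x ≠ 0 ∧ s ≠ 0 ∧
          (∀ i, aeval x (map (algebraMap K k) (F i)) = 0) ∧ y ∘ hI N c = s • veronese m x

/-- holomorphic maps from the punctured disc to `Y_σ` extend or lie over `v(X)_σ` -/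
def Discs (σ : K →+* ℂ) : Prop :=
  ∀ f : ℂ → Fin (N + c + 1) → ℂ, DifferentiableOn ℂ f (ball 0 1 \ {0}) →
    (∃ w ∈ ball (0 : ℂ) 1 \ {0}, f w ≠ 0) →
    (∀ w ∈ ball (0 : ℂ) 1 \ {0}, ∀ i, eval₂ σ (f w) (coverForm P i) = 0) →
    Extends f ∨ ∀ w ∈ ball (0 : ℂ) 1 \ {0}, f w ≠ 0 →
      ∃ x : Fin (n + 1) → ℂ, x ≠ 0 ∧ (∀ i, eval₂ σ x (F i) = 0) ∧ f w ∘ hI N c = veronese m x

/-- entire curves in `Y_σ` are constant or lie over `v(X)_σ` -/
def Curves (σ : K →+* ℂ) : Prop :=
  ∀ f : ℂ → Fin (N + c + 1) → ℂ, Differentiable ℂ f → (∀ z, f z ≠ 0) →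
    (∀ z i, eval₂ σ (f z) (coverForm P i) = 0) → (∀ z w, ∃ s : ℂ, f z = s • f w) ∨
      ∀ z, ∃ x : Fin (n + 1) → ℂ, x ≠ 0 ∧ (∀ i, eval₂ σ x (F i) = 0) ∧
        f z ∘ hI N c = veronese m x

end properties

section proof

open Pool.Agent.U207.QK
open Pool.Agent.N254.SQ (Mon ver ver_prop ver_smul ver_ne_zero ver_diff t_num)
open Pool.Agent.U207.QC (cN)

variable {n N d c : ℕ} {m : Fin (N + 1) → Fin (n + 1) → ℕ} {K : Type} [Field K]

theorem eval₂_alg (σ : K →+* ℂ) {M : ℕ} (x : Fin (M + 1) → ℂ) (p : MvPolynomial (Fin (M + 1)) K) :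
    eval₂ σ x p = eval x (map σ p) := by rw [eval_map]

theorem goodσ [CharZero K] {ι : Type} {F : ι → MvPolynomial (Fin (n + 1)) K}
    {P ℓ : Fin c → MvPolynomial (Fin (N + 1)) K} (h : Cv n N d c m F P ℓ) (σ : K →+* ℂ) :
    Cv n N d c m (fun i => map σ (F i)) (fun i => map σ (P i)) (fun i => map σ (ℓ i)) := by
  let _ : Algebra K ℂ := σ.toAlgebra
  exact h.map ℂ

theorem cover_map (σ : K →+* ℂ) (P : Fin c → MvPolynomial (Fin (N + 1)) K) (i : Fin c) :
    map σ (coverForm P i) = Pool.Agent.U207.QC.coverForm (fun i => map σ (P i)) i :=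
  map_cover σ P i

theorem curves_or [CharZero K] {ι : Type} {F : ι → MvPolynomial (Fin (n + 1)) K}
    {P ℓ : Fin c → MvPolynomial (Fin (N + 1)) K} (h : Cv n N d c m F P ℓ) (σ : K →+* ℂ) :
    Curves m F P σ := by
  intro f hf hf0 hfP
  obtain ⟨-, hg⟩ := (goodσ h σ).goodC
  rcases hg.curves f hf hf0 (fun z i => by
      rw [← cover_map, ← eval₂_alg]
      exact hfP z i) with h1 | h1
  · exact Or.inl fun z w => h1 w z
  · right
    intro z
    obtain ⟨x, hx, hxF, hxv⟩ := h1 z
    exact ⟨x, hx, fun i => by rw [eval₂_alg]; exact hxF _ ⟨i, rfl⟩, hxv⟩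

theorem discs_or [CharZero K] {ι : Type} {F : ι → MvPolynomial (Fin (n + 1)) K}
    {P ℓ : Fin c → MvPolynomial (Fin (N + 1)) K} (h : Cv n N d c m F P ℓ) (σ : K →+* ℂ) :
    Discs m F P σ := by
  intro f h1 h2 h3
  obtain ⟨-, hg⟩ := (goodσ h σ).goodC
  rcases hg.discs f ⟨h1, h2, fun w hw i => by
      rw [← cover_map, ← eval₂_alg]
      exact h3 w hw i⟩ with h4 | h4
  · exact Or.inl h4
  · right
    intro w hw hfw
    obtain ⟨x, hx, hxF, hxv⟩ := h4 w hw hfw
    exact ⟨x, hx, fun i => by rw [eval₂_alg]; exact hxF _ ⟨i, rfl⟩, hxv⟩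

theorem subvar_or [CharZero K] {ι : Type} {F : ι → MvPolynomial (Fin (n + 1)) K}
    {P ℓ : Fin c → MvPolynomial (Fin (N + 1)) K} (h : Cv n N d c m F P ℓ) :
    Subvarieties m F P := by
  intro k _ _ _ L _ _ w y _ hy
  have hch : CharZero k := charZero_of_injective_algebraMap (algebraMap K k).injective
  refine (h.map k).special hy.ne hy.gen hy.dim fun i => ?_
  rw [← map_cover]
  exact hy.mem i

theorem el_curve {ℓ : Fin c → MvPolynomial (Fin (N + 1)) ℂ} {g : ℂ → Fin (N + 1) → ℂ}
    (hg : Differentiable ℂ g) : Differentiable ℂ fun z => elK ℓ (g z) := by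
  have h1 := Pool.Agent.U207.QC.diff_el (ℓ := ℓ) hg.differentiableOn (U := Set.univ)
  rw [differentiableOn_univ] at h1
  exact h1

/-- hyperbolicity of `Y` and of `X` -/
theorem hyp_iff [CharZero K] {ι : Type} {F : ι → MvPolynomial (Fin (n + 1)) K}
    {P ℓ : Fin c → MvPolynomial (Fin (N + 1)) K} (h : Cv n N d c m F P ℓ) (σ : K →+* ℂ) :
    Hyperbolic σ (coverForm P) ↔ Hyperbolic σ F := by
  have hd1 : 1 ≤ d := le_trans (by norm_num) h.hd
  have hσ := goodσ h σ
  constructor
  · intro hY f hf hf0 hfF z w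
    have hF : ∀ z i, aeval (f z) (map σ (F i)) = 0 := fun z i => by
      have h1 := hfF z i
      rw [eval₂_alg] at h1
      exact h1
    obtain ⟨s, hs⟩ := hY (fun z => elK (fun i => map σ (ℓ i)) (ver m (f z)))
      (el_curve (ver_diff hf)) (fun z => elK_ne (ver_ne_zero h.mon hd1 (hf0 z))) (fun z i => by
        rw [eval₂_alg, map_cover]
        exact hσ.mem (hF z) i) z w
    have h2 : ver m (f z) = s • ver m (f w) := by
      have h3 := congrArg (fun v : Fin (N + c + 1) → ℂ => v ∘ hI N c) hs
      simp only [elK_hI] at h3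
      rw [h3]
      funext j
      simp only [Function.comp, Pi.smul_apply, elK_h]
    exact ver_prop h.mon hd1 (hf0 z) h2
  · intro hX f hf hf0 hfP
    rcases curves_or h σ f hf hf0 hfP with h1 | h1
    · exact h1
    have hfP' : ∀ z i, eval (f z) (coverForm (fun i => map σ (P i)) i) = 0 := fun z i => by
      rw [← map_cover, ← eval₂_alg]
      exact hfP z i
    obtain ⟨g, hg, hg0, hgF, hgf⟩ := lift_curve h.mon hd1 (F := fun i => map σ (F i))
      (fun i => by
        obtain ⟨e, -, he⟩ := hσ.hF i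
        exact ⟨e, he⟩) (G := fun z => f z ∘ hI N c)
      (by
        rw [differentiable_pi] at hf ⊢
        exact fun j => hf _)
      (fun z => base_ne (P := fun i => map σ (P i)) hσ.homP (hf0 z) fun i => hfP' z i)
      (fun z => by
        obtain ⟨x, hx, hxF, hxv⟩ := h1 z
        exact ⟨x, hx, fun i => by
          rw [← eval₂_alg]
          exact hxF i, hxv⟩)
    have h2 := hX g hg hg0 fun z i => by
      rw [eval₂_alg]
      exact hgF z i
    have h3 := curve_const hσ.homP hf hf0 hfP' fun z w => by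
      obtain ⟨s, hs⟩ := h2 w z
      refine ⟨s ^ d, ?_⟩
      rw [hgf w, hgf z, hs, ver_smul h.mon]
    exact fun z w => h3 w z

/-- rational points of `X` and of `Y` -/
theorem finite_points [CharZero K] {ι : Type} {F : ι → MvPolynomial (Fin (n + 1)) K}
    {P ℓ : Fin c → MvPolynomial (Fin (N + 1)) K} (h : Cv n N d c m F P ℓ)
    (hfin : (points (coverForm P)).Finite) : (points F).Finite := by
  classical
  have hd1 : 1 ≤ d := le_trans (by norm_num) h.hd
  let φ : ℙ K (Fin (n + 1) → K) → ℙ K (Fin (N + c + 1) → K) := fun Q =>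
    Projectivization.mk K (elK ℓ (ver m Q.rep)) (elK_ne (ver_ne_zero h.mon hd1 Q.rep_nonzero))
  have hφ : Function.Injective φ := by
    intro Q Q' hQ
    obtain ⟨a, ha⟩ := (Projectivization.mk_eq_mk_iff K _ _ _ _).1 hQ
    have h1 : ver m Q.rep = (a : K) • ver m Q'.rep := by
      have h3 := congrArg (fun v : Fin (N + c + 1) → K => v ∘ hI N c) ha
      simp only [elK_hI] at h3
      rw [← h3]
      funext j
      change (a : K) * elK ℓ (ver m Q'.rep) (hI N c j) = (a : K) * ver m Q'.rep j
      rw [elK_h]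
    obtain ⟨s, hs⟩ := ver_prop (c := (a : K)) h.mon hd1 Q.rep_nonzero h1
    have hs0 : s ≠ 0 := by
      intro h0
      rw [h0, zero_smul] at hs
      exact Q.rep_nonzero hs
    rw [← Q.mk_rep, ← Q'.mk_rep, Projectivization.mk_eq_mk_iff]
    exact ⟨Units.mk0 s hs0, hs.symm⟩
  apply Set.Finite.of_finite_image (f := φ) (hfin.subset ?_) hφ.injOn
  rintro _ ⟨Q, hQ, rfl⟩ i
  obtain ⟨a, ha⟩ := Projectivization.exists_smul_eq_mk_rep K (elK ℓ (ver m Q.rep))
    (elK_ne (ver_ne_zero h.mon hd1 Q.rep_nonzero))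
  have h1 : (φ Q).rep = (a : K) • elK ℓ (ver m Q.rep) := ha.symm
  change aeval (φ Q).rep (coverForm P i) = 0
  rw [h1, aeval_scaleK (cover_hom h.homP i), h.mem (fun k => hQ k), mul_zero]

end proof

open Pool.Agent.U207.QK (Cv exists_cvK cover_hom) in
open Pool.Agent.N254.SQ (Mon t_num) in
theorem result :
    (∀ n d : ℕ, 1 ≤ n → 3 ≤ d → ∃ (N : ℕ) (m : Fin (N + 1) → Fin (n + 1) → ℕ),
      Monomials n N d m ∧ ∀ c, (2 * (N + 1) ^ 3 + 6 * N + 5) ^ 2 ≤ c →
        ∀ (K : Type) [Field K] [CharZero K] (ι : Type) [Finite ι]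
        (F : ι → MvPolynomial (Fin (n + 1)) K), (∀ i, ∃ e ≤ d, (F i).IsHomogeneous e) →
        ∃ P ℓ : Fin c → MvPolynomial (Fin (N + 1)) K,
          (∀ i, (P i).IsHomogeneous 2) ∧ (∀ i, (ℓ i).IsHomogeneous 1) ∧ SmoothCover P ∧
          (∀ (Ω : Type) [Field Ω] [Algebra K Ω] (x : Fin (n + 1) → Ω), (∀ i, aeval x (F i) = 0) →
            ∀ i, aeval (veronese m x) (P i) = aeval (veronese m x) (ℓ i) ^ 2) ∧
          Subvarieties m F P ∧ ∀ σ : K →+* ℂ, Discs m F P σ ∧ Curves m F P σ ∧
            (Hyperbolic σ (coverForm P) ↔ Hyperbolic σ F)) ∧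
    ∀ (K : Type) [Field K] [NumberField K] (σ : K →+* ℂ) (E : ℕ → Set ℕ),
      (∀ N, (E N).Infinite) → (LangProjective σ ↔ LangCovers E σ) := by
  refine ⟨?_, fun K _ _ σ E hE => ⟨?_, ?_⟩⟩
  · intro n d hn hd
    obtain ⟨N, m, hm, hN⟩ := t_num n d hn hd
    refine ⟨N, m, ⟨hm.deg, hm.inj, hm.surj⟩, fun c hc K _ _ ι _ F hF => ?_⟩
    obtain ⟨P, ℓ, h⟩ := exists_cvK hn hd hm hN hF c hc
    exact ⟨P, ℓ, h.homP, h.homL, h.smooth, fun Ω _ _ x hx i => h.sub Ω x hx i, subvar_or h,
      fun σ => ⟨discs_or h σ, curves_or h σ, hyp_iff h σ⟩⟩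
  · intro h N c P _ hP _ hyp
    exact h (N + c) (Fin c) (coverForm P) (fun i => ⟨2, cover_hom hP i⟩) hyp
  · intro h n ι _ F hF hyp
    classical
    rcases Nat.eq_zero_or_pos n with hn | hn
    · subst hn
      apply Set.Finite.subset (s := {Projectivization.mk K (fun _ : Fin (0 + 1) => (1 : K))
        (fun h2 => one_ne_zero (congrFun h2 0))}) (Set.finite_singleton _)
      intro P _
      rw [Set.mem_singleton_iff, ← P.mk_rep, Projectivization.mk_eq_mk_iff]
      have h1 : P.rep 0 ≠ 0 := by
        intro h2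
        apply P.rep_nonzero
        funext j
        rw [show j = 0 from Fin.ext (by omega)]
        exact h2
      refine ⟨Units.mk0 (P.rep 0) h1, funext fun j => ?_⟩
      rw [show j = 0 from Fin.ext (by omega)]
      change P.rep 0 * 1 = P.rep 0
      rw [mul_one]
    · choose e he using hF
      have := Fintype.ofFinite ι
      have hed : ∀ i, ∃ e' ≤ max 3 (Finset.univ.sup e), (F i).IsHomogeneous e' := fun i =>
        ⟨e i, le_trans (Finset.le_sup (f := e) (Finset.mem_univ i)) (le_max_right _ _), he i⟩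
      obtain ⟨N, m, hm, hN⟩ := t_num n (max 3 (Finset.univ.sup e)) hn (le_max_left _ _)
      obtain ⟨c, hcE, hc⟩ := (hE N).exists_gt (Pool.Agent.U207.QC.cN N)
      obtain ⟨P, ℓ, hcv⟩ := exists_cvK hn (le_max_left _ _) hm hN hed c hc.le
      exact finite_points hcv (h N c P hcE hcv.homP hcv.smooth ((hyp_iff hcv σ).2 hyp))

end Pool.Agent.Results.MP_627a61_nt.QuadricCoversSuffice
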