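import Mathlib
import Pool.Agent.R849.PR.Tfae

set_option autoImplicit false

/-!
# Points with small, cyclotomic or torsion multipliers on projective varieties

Let `V` and `V'` be closed subsets of projective `n`-space over a number field `K`, given by finitely
many forms `F_i`, respectively by forms `G_l`, with coefficients in `𝓞 K` (for Lang's conjecture on
hyperbolic varieties `V'` is empty, `G = 1`). Let `σ` be an embedding of `K` in `ℂ`, and let the `F_i`
be of degree at most `d`.

**Theorem.** There are `ε d r > 0`, `M d r` and `M' d r B`, which depend on nothing else, such that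
the following are equivalent:

* all nonconstant entire curves in `V_σ` with homogeneous coordinates of exponential type lie in `V'`
  (`ExpCurvesIn`);
* all nonconstant rational curves in `V_σ` lie in `V'` (`RatCurvesIn`);
* all nonconstant rational curves in `V` over all extension fields of `K` lie in `V'` (`RatIn`);
* (`SmallUniform`) for all extension fields `L` of `K` which contain the algebraic numbers and
  all vectors `V_1, …, V_r` over `L`, at most `M d r` points of `V` outside of `V'` have homogeneous
  coordinates `∑ t_j V_j` with algebraic numbers `t_j` such that `h(t_1 : … : t_r) < ε d r` (the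
  absolute logarithmic Weil height);
* (`CycUniform`) for all extension fields `L` of `K` and all vectors `V_1, …, V_r` over `L`, at
  most `M' d r B` points of `V` outside of `V'` have homogeneous coordinates `∑ t_j V_j` with
  cyclotomic integers `t_j` for which the mean of the squares of the absolute values of the
  conjugates is at most `B`;
* (`TorsFinite`) for all `L` and `V_1, …, V_r` over `L` finitely many points of `V` outside of
  `V'` have homogeneous coordinates `∑ t_j V_j` with roots of unity `t_j`;
* (`TorsFiniteQbar`) the same for `L` the field of all algebraic numbers.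

If all entire curves in `V_σ` lie in `V'` (for `V'` empty: if `V_σ` is hyperbolic), or if for all
number fields `L ⊇ K` the points of `V(L)` outside of `V'` are finite in number, then these conditions
hold.

The points are defined over number fields of unbounded degree, there are no conditions on the
vectors `V_j`, and the bounds depend neither on `V` and `V'` (except for the degree `d`) nor on `n`,
`K`, `L` and the vectors.

Method (projects R849, R870, Y215 of the library): vanishing sums with small algebraic numbers, and
Loxton's theorem on cyclotomic integers.
-/

namespace Pool.Agent.Results.MP_627a61_nt.SmallMultipliers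

open MvPolynomial NumberField Pool.Agent.R849.PR
open Pool.Agent.W235.PR (ExpCurvesIn RatCurvesIn EntireCurvesIn RationalFinite)

/-- **Small, cyclotomic and torsion multipliers.** -/
theorem result : ∃ (ε : ℕ → ℕ → ℝ) (M : ℕ → ℕ → ℕ) (M' : ℕ → ℕ → ℝ → ℕ),
    (∀ d r, 1 ≤ d → 0 < ε d r) ∧
    ∀ (K : Type) [Field K] [NumberField K] (σ : K →+* ℂ) (n : ℕ) (ι κ : Type) [Finite ι]
      (F : ι → MvPolynomial (Fin (n + 1)) (𝓞 K)) (G : κ → MvPolynomial (Fin (n + 1)) (𝓞 K)),
      (∀ i, ∃ e, (F i).IsHomogeneous e) → (∀ l, ∃ e, (G l).IsHomogeneous e) →
      List.TFAE [ExpCurvesIn σ F G, RatCurvesIn σ F G, RatIn (overK F) (overK G),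
        SmallUniform ε M (overK F) (overK G), CycUniform M' (overK F) (overK G),
        TorsFinite (overK F) (overK G), TorsFiniteQbar (overK F) (overK G)] ∧
      (EntireCurvesIn σ F G → SmallUniform ε M (overK F) (overK G)) ∧
      (RationalFinite F G → SmallUniform ε M (overK F) (overK G)) := by
  obtain ⟨M', hM'⟩ := cyc_of_rat
  refine ⟨epsP, MP, M', epsP_pos, fun K _ _ σ n ι κ _ F G hF hG => ?_⟩
  have h1 := tfae_num (σ := σ) (F := F) (G := G) M' hM' hF hG
  have h2 := Pool.Agent.W235.PR.tfae σ F G hF hG
  refine ⟨h1, fun h => ?_, fun h => ?_⟩
  · exact (h1.out 0 3).1 (Pool.Agent.W235.PR.exp_of_entire σ F G hF hG h)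
  · have h3 : Pool.Agent.W235.PR.RecurrenceFinite F G :=
      Pool.Agent.W235.PR.rec_of_rational F G h
    exact (h1.out 0 3).1 ((h2.out 5 0).1 h3)

end Pool.Agent.Results.MP_627a61_nt.SmallMultipliers
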